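import Pool.Agent.Helper44.GF.Defs

/-!
# SCH : the Schur test
-/

open Finset MeasureTheory Filter Topology
open scoped ENNReal ContDiff

namespace Pool.Agent.Helper44.GF

/-- abstract Schur test -/
lemma sch_abs {X : Type} [DecidableEq X] (t : Finset X) (b h u T : X → ℝ) (κ : X → X → ℝ) (C : ℝ)
    (hb : ∀ x, 0 ≤ b x) (hh : ∀ x, 0 < h x) (hκ : ∀ x y, 0 ≤ κ x y)
    (hsym : ∀ x y, κ x y = κ y x)
    (hT : ∀ x ∈ t, ∑ y ∈ t.erase x, b y * κ x y * h y ≤ C * h x * T x) :
    -(C * ∑ x ∈ t, b x * u x ^ 2 * T x) ≤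
      ∑ x ∈ t, ∑ y ∈ t.erase x, b x * b y * (κ x y * (u x * u y)) := by
  have hswap : ∀ f : X → X → ℝ, ∑ x ∈ t, ∑ y ∈ t.erase x, f x y =
      ∑ y ∈ t, ∑ x ∈ t.erase y, f x y := by
    intro f
    apply Finset.sum_comm'
    intro x y
    simp only [Finset.mem_erase]
    constructor
    · rintro ⟨h1, h2, h3⟩
      exact ⟨⟨fun h => h2 h.symm, h1⟩, h3⟩
    · rintro ⟨⟨h1, h2⟩, h3⟩
      exact ⟨h2, fun h => h1 h.symm, h3⟩
  set E : ℝ := ∑ x ∈ t, ∑ y ∈ t.erase x, b x * b y * κ x y * (u x ^ 2 * (h y / h x)) with hE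
  have hE2 : E = ∑ x ∈ t, ∑ y ∈ t.erase x, b x * b y * κ x y * (u y ^ 2 * (h x / h y)) := by
    rw [hE, hswap]
    refine Finset.sum_congr rfl (fun x _ => Finset.sum_congr rfl (fun y _ => ?_))
    rw [hsym y x]
    ring
  have h1 : -E ≤ ∑ x ∈ t, ∑ y ∈ t.erase x, b x * b y * (κ x y * (u x * u y)) := by
    have e1 : -E = ∑ x ∈ t, ∑ y ∈ t.erase x, (-(1 / 2) * (b x * b y * κ x y *
        (u x ^ 2 * (h y / h x))) - 1 / 2 * (b x * b y * κ x y * (u y ^ 2 * (h x / h y)))) := by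
      simp only [Finset.sum_sub_distrib, ← Finset.mul_sum]
      rw [← hE, ← hE2]
      ring
    rw [e1]
    refine Finset.sum_le_sum (fun x _ => Finset.sum_le_sum (fun y _ => ?_))
    have hx := hh x
    have hy := hh y
    have hc : 0 ≤ b x * b y * κ x y := mul_nonneg (mul_nonneg (hb x) (hb y)) (hκ x y)
    have e2 : u x ^ 2 * (h y / h x) + u y ^ 2 * (h x / h y) + 2 * (u x * u y) =
        (u x * h y + u y * h x) ^ 2 / (h x * h y) := by
      field_simp
      ring
    have e3 : 0 ≤ u x ^ 2 * (h y / h x) + u y ^ 2 * (h x / h y) + 2 * (u x * u y) := by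
      rw [e2]; positivity
    nlinarith [mul_nonneg hc e3]
  refine le_trans (neg_le_neg ?_) h1
  rw [hE, Finset.mul_sum]
  refine Finset.sum_le_sum (fun x hx => ?_)
  have hx0 := hh x
  have e4 : ∑ y ∈ t.erase x, b x * b y * κ x y * (u x ^ 2 * (h y / h x)) =
      b x * u x ^ 2 / h x * ∑ y ∈ t.erase x, b y * κ x y * h y := by
    rw [Finset.mul_sum]
    refine Finset.sum_congr rfl (fun y _ => ?_)
    field_simp
  rw [e4]
  calc b x * u x ^ 2 / h x * ∑ y ∈ t.erase x, b y * κ x y * h y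
      ≤ b x * u x ^ 2 / h x * (C * h x * T x) := by
        apply mul_le_mul_of_nonneg_left (hT x hx)
        exact div_nonneg (mul_nonneg (hb x) (sq_nonneg _)) hx0.le
    _ = C * (b x * u x ^ 2 * T x) := by field_simp

theorem st_SCH (hSC2 : ST_SC2) (_hMF1 : ST_MF1) (hMF3 : ST_MF3) : ST_SCH := by
  intro n m Y ι _ _ _ S a r z d s hMH η u
  obtain ⟨_, hA1, hA2, _, hbet, hkk0, hkk1, hkks⟩ := hMF3 n m Y ι S a r z d s hMH η
  set A : Fin n → ℝ := fun i => A1 S a (tau d r η) i with hA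
  set B : Fin n → Fin n → ℝ := fun i j => A2 S a (tau d r η) i j with hB
  have hs0 := hMH.hs
  have hm1 : (1 : ℝ) ≤ m := by exact_mod_cast hMH.hm
  have hs1 : s ≤ 1 / 15 := by
    refine hMH.hsm.trans ?_
    apply one_div_le_one_div_of_le (by norm_num)
    linarith
  have hs2 : s ≤ 1 / 2 := by linarith
  set h : Fin n × Y → ℝ := fun x => r x.2 * A x.1 + s with hh
  have hh0 : ∀ x, 0 < h x := fun x => by
    have := mul_pos (hMH.hr x.2) (hA1 x.1)
    rw [hh]; simp only []; linarith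
  refine sch_abs ηᶜ (fun x => bet S a d r z η x) h u (fun x => sch S a r z d η x)
    (fun x y => 1 - kk S a d r η x y) (8 * s / (3 * (1 - s))) (fun x => (hbet x).le) hh0
    (fun x y => by linarith [hkk1 x y]) (fun x y => by rw [hkks x y]) (fun x _ => ?_)
  have hnn : ∀ y : Fin n × Y, 0 ≤ bet S a d r z η y * (1 - kk S a d r η x y) * h y := fun y =>
    mul_nonneg (mul_nonneg (hbet y).le (by linarith [hkk1 x y])) (hh0 y).le
  calc ∑ y ∈ ηᶜ.erase x, bet S a d r z η y * (1 - kk S a d r η x y) * h y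
      ≤ ∑ y : Fin n × Y, bet S a d r z η y * (1 - kk S a d r η x y) * h y :=
        Finset.sum_le_sum_of_subset_of_nonneg (Finset.subset_univ _) (fun y _ _ => hnn y)
    _ = ∑ j : Fin n, ∑ y : Y, z y * Real.exp (-(A j * r y)) *
          (1 - Real.exp (-(r x.2 * r y * B x.1 j))) * (r y * A j + s) := by
        rw [Fintype.sum_prod_type]
        refine Finset.sum_congr rfl (fun j _ => Finset.sum_congr rfl (fun y _ => ?_))
        unfold bet kk
        rw [mul_comm (A j) (r y)]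
    _ ≤ ∑ j : Fin n, 8 * s / (3 * (1 - s)) * (r x.2 * A x.1 + s) * (B x.1 j / A x.1) *
          m1c d r z (A x.1) (B x.1 j) (A j + r x.2 * B x.1 j) := by
        refine Finset.sum_le_sum (fun j _ => ?_)
        exact hSC2 Y r z d s hMH.hr (fun y => (hMH.hz y).le) hMH.hd.le hs0 hs2 hMH.h1 (A j) (A x.1)
          (B x.1 j) (r x.2) (hA1 j) (hA1 x.1) (hA2 x.1 j) (hMH.hr x.2)
    _ = 8 * s / (3 * (1 - s)) * h x * sch S a r z d η x := by
        unfold sch
        rw [Finset.mul_sum]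
        refine Finset.sum_congr rfl (fun j _ => ?_)
        ring

end Pool.Agent.Helper44.GF
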